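import Pool.Agent.Helper69.UX.StA

set_option autoImplicit false

/-!
# Project UX, module TRV (MP_e12aa9_pr): transversal sets
-/

namespace Pool.Agent.Helper29.UX

open Finset Filter Pool.Agent.Helper82.CN Pool.Agent.Helper11.PV Pool.Agent.Helper69.VX
  Pool.Agent.Helper69.UX

theorem trv_sum_card {n : ℕ} (P : Finset (Finset (Fin n))) (hP : P ∈ Pt (Fin n)) :
    ∑ A ∈ P, A.card ≤ n := by
  classical
  have h1 : (∀ A ∈ P, A.Nonempty) ∧ (∀ A ∈ P, ∀ B ∈ P, A ≠ B → Disjoint A B) ∧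
      ∀ v : Fin n, ∃ A ∈ P, v ∈ A := by
    have h0 := hP
    simp only [Pt, Finset.mem_filter, Finset.mem_univ, true_and] at h0
    exact h0
  have h2 : (P.biUnion (fun A => A)).card = ∑ A ∈ P, A.card :=
    card_biUnion (fun A hA B hB hAB => h1.2.1 A hA B hB hAB)
  rw [← h2]
  refine (card_le_univ _).trans ?_
  rw [Fintype.card_fin]

theorem trv_inn {n T : ℕ} (P : Finset (Finset (Fin n))) (hP : P ∈ Pt (Fin n))
    (hT : ∀ A ∈ P, A.card ≤ T + 1) : 2 * ∑ A ∈ P, A.card.choose 2 ≤ n * T := by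
  rw [mul_sum]
  have h1 : ∀ A ∈ P, 2 * A.card.choose 2 ≤ A.card * T := by
    intro A hA
    have h2 := hT A hA
    rw [Nat.choose_two_right]
    have h3 : 2 * (A.card * (A.card - 1) / 2) ≤ A.card * (A.card - 1) := Nat.mul_div_le _ _
    exact h3.trans (Nat.mul_le_mul_left _ (by omega))
  calc ∑ A ∈ P, 2 * A.card.choose 2 ≤ ∑ A ∈ P, A.card * T := sum_le_sum h1
    _ = (∑ A ∈ P, A.card) * T := by rw [sum_mul]
    _ ≤ n * T := Nat.mul_le_mul_right _ (trv_sum_card P hP)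

theorem trv_contain {n : ℕ} (t : ℕ) (e : Finset (Fin n)) (he : e.card = 2) :
    (((univ : Finset (Fin n)).powersetCard (t + 2)).filter (fun S => e ⊆ S)).card ≤
      (n - 2).choose t := by
  classical
  have h1 : ((univ \ e : Finset (Fin n)).powersetCard t).card = (n - 2).choose t := by
    rw [card_powersetCard, card_sdiff_of_subset (subset_univ e), he, card_univ, Fintype.card_fin]
  rw [← h1]
  apply card_le_card_of_injOn (fun S => S \ e)
  · intro S hS
    rw [mem_coe, mem_filter, mem_powersetCard] at hS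
    rw [mem_coe, mem_powersetCard]
    refine ⟨sdiff_subset_sdiff (subset_univ S) (subset_refl e), ?_⟩
    rw [card_sdiff_of_subset hS.2, hS.1.2, he]
    rfl
  · intro S hS S' hS' h
    rw [mem_coe, mem_filter] at hS hS'
    have h2 : S \ e = S' \ e := h
    rw [← sdiff_union_of_subset hS.2, ← sdiff_union_of_subset hS'.2, h2]

theorem hTRV : StTRV := by
  classical
  intro n T P Q hT2 hTn hP hQ hPT hQT
  obtain ⟨t, rfl⟩ : ∃ t, T = t + 2 := ⟨T - 2, by omega⟩
  obtain ⟨m, rfl⟩ : ∃ m, n = m + 2 := ⟨n - 2, by omega⟩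
  -- the set of the pairs inside a class
  obtain ⟨Z, hZ⟩ : ∃ Z : Finset (Finset (Fin (m + 2))), Z =
    (P.biUnion (fun A => A.powersetCard 2)) ∪ (Q.biUnion (fun A => A.powersetCard 2)) := ⟨_, rfl⟩
  have hZc : Z.card ≤ (m + 2) * (t + 2) := by
    have h1 : (P.biUnion (fun A => A.powersetCard 2)).card ≤ ∑ A ∈ P, A.card.choose 2 := by
      refine card_biUnion_le.trans (sum_le_sum fun A _ => ?_)
      rw [card_powersetCard]
    have h2 : (Q.biUnion (fun A => A.powersetCard 2)).card ≤ ∑ A ∈ Q, A.card.choose 2 := by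
      refine card_biUnion_le.trans (sum_le_sum fun A _ => ?_)
      rw [card_powersetCard]
    have h3 := trv_inn P hP hPT
    have h4 := trv_inn Q hQ hQT
    have h5 := card_union_le (P.biUnion (fun A => A.powersetCard 2))
      (Q.biUnion (fun A => A.powersetCard 2))
    rw [← hZ] at h5
    omega
  have hZ2 : ∀ e ∈ Z, e.card = 2 := by
    intro e he
    rw [hZ, mem_union, mem_biUnion, mem_biUnion] at he
    rcases he with ⟨A, _, hA⟩ | ⟨A, _, hA⟩
    · exact (mem_powersetCard.1 hA).2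
    · exact (mem_powersetCard.1 hA).2
  obtain ⟨F, hF⟩ : ∃ F : Finset (Finset (Fin (m + 2))), F =
    (univ : Finset (Fin (m + 2))).powersetCard (t + 2) := ⟨_, rfl⟩
  have hFc : F.card = (m + 2).choose (t + 2) := by
    rw [hF, card_powersetCard, card_univ, Fintype.card_fin]
  have hbad : F.filter (fun S => ¬ ((∀ A ∈ P, (S ∩ A).card ≤ 1) ∧ ∀ A ∈ Q, (S ∩ A).card ≤ 1)) ⊆
      Z.biUnion (fun e => F.filter (fun S => e ⊆ S)) := by
    intro S hS
    rw [mem_filter] at hS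
    obtain ⟨hS1, hS2⟩ := hS
    have key : ∀ A : Finset (Fin (m + 2)), ¬ (S ∩ A).card ≤ 1 →
        ∃ e : Finset (Fin (m + 2)), e ⊆ S ∧ e ∈ A.powersetCard 2 := by
      intro A hA
      obtain ⟨e, he1, he2⟩ := exists_subset_card_eq (show 2 ≤ (S ∩ A).card by omega)
      exact ⟨e, he1.trans inter_subset_left,
        mem_powersetCard.2 ⟨he1.trans inter_subset_right, he2⟩⟩
    rw [mem_biUnion]
    rw [not_and_or] at hS2
    rcases hS2 with h | h
    · push Not at h
      obtain ⟨A, hA1, hA2⟩ := h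
      obtain ⟨e, he1, he2⟩ := key A (by omega)
      refine ⟨e, ?_, mem_filter.2 ⟨hS1, he1⟩⟩
      rw [hZ, mem_union, mem_biUnion]
      exact Or.inl ⟨A, hA1, he2⟩
    · push Not at h
      obtain ⟨A, hA1, hA2⟩ := h
      obtain ⟨e, he1, he2⟩ := key A (by omega)
      refine ⟨e, ?_, mem_filter.2 ⟨hS1, he1⟩⟩
      rw [hZ, mem_union, mem_biUnion, mem_biUnion]
      exact Or.inr ⟨A, hA1, he2⟩
  have hbadc : (F.filter (fun S => ¬ ((∀ A ∈ P, (S ∩ A).card ≤ 1) ∧
      ∀ A ∈ Q, (S ∩ A).card ≤ 1))).card ≤ (m + 2) * (t + 2) * m.choose t := by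
    refine (card_le_card hbad).trans (card_biUnion_le.trans ?_)
    calc ∑ e ∈ Z, (F.filter (fun S => e ⊆ S)).card ≤ ∑ e ∈ Z, m.choose t := by
          refine sum_le_sum fun e he => ?_
          rw [hF]
          have := trv_contain t e (hZ2 e he)
          rwa [Nat.add_sub_cancel] at this
      _ = Z.card * m.choose t := by rw [sum_const, smul_eq_mul]
      _ ≤ _ := Nat.mul_le_mul_right _ hZc
  have hsplit := card_filter_add_card_filter_not (s := F)
    (fun S => (∀ A ∈ P, (S ∩ A).card ≤ 1) ∧ ∀ A ∈ Q, (S ∩ A).card ≤ 1)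
  rw [hFc] at hsplit
  obtain ⟨g, hg⟩ : ∃ g : ℕ, g = (F.filter (fun S => (∀ A ∈ P, (S ∩ A).card ≤ 1) ∧
    ∀ A ∈ Q, (S ∩ A).card ≤ 1)).card := ⟨_, rfl⟩
  rw [← hg] at hsplit
  have hgoal : ((m + 2).choose (t + 2) : ℝ) * (1 - ((t + 2 : ℕ) : ℝ) ^ 3 / ((m + 2 : ℕ) : ℝ)) ≤
      (g : ℝ) := by
    have h1 : (m + 2).choose (t + 2) ≤ g + (m + 2) * (t + 2) * m.choose t := by
      rw [← hsplit]
      exact Nat.add_le_add_left hbadc g
    have h2 : (m + 2) * ((m + 1) * m.choose t) = (m + 2).choose (t + 2) * (t + 2) * (t + 1) := by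
      have e1 := Nat.add_one_mul_choose_eq m t
      have e2 := Nat.add_one_mul_choose_eq (m + 1) (t + 1)
      have e3 : (m + 2) * (m + 1).choose (t + 1) = (m + 2).choose (t + 2) * (t + 2) := e2
      rw [e1, ← mul_assoc, e3]
    have h1' : ((m + 2).choose (t + 2) : ℝ) ≤ g + ((m : ℝ) + 2) * (t + 2) * (m.choose t : ℝ) := by
      exact_mod_cast h1
    have h2' : ((m : ℝ) + 2) * (((m : ℝ) + 1) * (m.choose t : ℝ)) =
        ((m + 2).choose (t + 2) : ℝ) * ((t : ℝ) + 2) * (t + 1) := by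
      exact_mod_cast h2
    obtain ⟨c, hc⟩ : ∃ c : ℝ, c = (m.choose t : ℝ) := ⟨_, rfl⟩
    obtain ⟨D, hD⟩ : ∃ D : ℝ, D = ((m + 2).choose (t + 2) : ℝ) := ⟨_, rfl⟩
    rw [← hc, ← hD] at h1' h2'
    rw [← hD]
    have hD0 : 0 ≤ D := by rw [hD]; exact Nat.cast_nonneg _
    have hm0 : (0 : ℝ) ≤ m := Nat.cast_nonneg _
    have ht0 : (0 : ℝ) ≤ t := Nat.cast_nonneg _
    have htm : (t : ℝ) ≤ m := by
      have : t ≤ m := by omega
      exact_mod_cast this
    push_cast
    have h3 : ((m : ℝ) + 2) * (t + 2) * c ≤ D * (((t : ℝ) + 2) ^ 3 / ((m : ℝ) + 2)) := by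
      rw [← mul_div_assoc, le_div_iff₀ (by linarith)]
      -- multiply by `m + 1`
      have h4 : (((m : ℝ) + 2) * (t + 2) * c * (m + 2)) * (m + 1) ≤
          (D * ((t : ℝ) + 2) ^ 3) * (m + 1) := by
        have h5 : (((m : ℝ) + 2) * (t + 2) * c * (m + 2)) * (m + 1) =
            D * (t + 2) ^ 2 * ((t + 1) * (m + 2)) := by
          have : (((m : ℝ) + 2) * (t + 2) * c * (m + 2)) * (m + 1) =
            (((m : ℝ) + 2) * (((m : ℝ) + 1) * c)) * ((t + 2) * (m + 2)) := by ring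
          rw [this, h2']
          ring
        have h6 : (D * ((t : ℝ) + 2) ^ 3) * (m + 1) = D * (t + 2) ^ 2 * ((t + 2) * (m + 1)) := by
          ring
        rw [h5, h6]
        apply mul_le_mul_of_nonneg_left _ (by positivity)
        nlinarith
      exact le_of_mul_le_mul_right h4 (by linarith)
    have h4 : D * (1 - ((t : ℝ) + 2) ^ 3 / ((m : ℝ) + 2)) =
        D - D * (((t : ℝ) + 2) ^ 3 / ((m : ℝ) + 2)) := by ring
    rw [h4]
    linarith
  rw [hg, hF] at hgoal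
  convert hgoal using 1

end Pool.Agent.Helper29.UX
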